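import Pool.Agent.helper68.SF.SpecE

set_option autoImplicit false

namespace SF

open MeasureTheory
open scoped ContDiff

theorem EWC_dXc {u v : ℝ → ℝ → ℝ → ℝ} {s y : ℝ} (h : ∀ t, u s t y = v s t y) (x : ℝ) :
    dX u s x y = dX v s x y := by
  show deriv (fun t => u s t y) x = deriv (fun t => v s t y) x
  rw [funext h]

theorem EWC_dSc {u v : ℝ → ℝ → ℝ → ℝ} {x y : ℝ} (h : ∀ t, u t x y = v t x y) (s : ℝ) :
    dS u s x y = dS v s x y := by
  show deriv (fun t => u t x y) s = deriv (fun t => v t x y) s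
  rw [funext h]

theorem EWC_dYc {u v : ℝ → ℝ → ℝ → ℝ} {s x y : ℝ} (hy : 0 < y)
    (h : ∀ t, 0 < t → u s x t = v s x t) : dY u s x y = dY v s x y := by
  show deriv (fun t => u s x t) y = deriv (fun t => v s x t) y
  refine Filter.EventuallyEq.deriv_eq ?_
  filter_upwards [lt_mem_nhds hy] with t ht
  exact h t ht

theorem EWC_it (hBS : BS_stmt) {f : ℝ → ℝ → ℝ → ℝ} (hf : Sm f) (j : ℕ) : Sm (dS^[j] f) := by
  induction j with
  | zero => exact hf
  | succ j ih =>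
    rw [Function.iterate_succ_apply']
    exact (hBS _ ih).1

theorem EWC_one (hBS : BS_stmt) {f : ℝ → ℝ → ℝ → ℝ} (hf : EW f) : EW (dS f) := by
  obtain ⟨b1, b2, b3, b4⟩ := hBS f hf.sm
  obtain ⟨c1, c2, c3, c4⟩ := hBS _ b1
  obtain ⟨d1, d2, d3, d4⟩ := hBS _ b2
  obtain ⟨e1, e2, e3, e4⟩ := hBS _ b3
  refine ⟨b1, ?_, ?_, ?_, ?_, ?_⟩
  · intro s x y hy
    have k1 : dS (dS (dS f)) s x y =
        4 * y ^ 2 * (dS (dX (dX f)) s x y + dS (dY (dY f)) s x y) + dS f s x y := by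
      have g1 := ((((hBS _ d2).2.2.2 s x y hy).1.add ((hBS _ e3).2.2.2 s x y hy).1).const_mul
        (4 * y ^ 2)).add (b4 s x y hy).1
      have g2 : (fun t => dS (dS f) t x y) =
          fun t => 4 * y ^ 2 * (dX (dX f) t x y + dY (dY f) t x y) + f t x y :=
        funext fun t => hf.wv t x y hy
      show deriv (fun t => dS (dS f) t x y) s = _
      rw [g2]
      exact g1.deriv
    have k2 : dS (dX (dX f)) s x y = dX (dX (dS f)) s x y := by
      rw [(d4 s x y hy).2.2.2.1]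
      exact EWC_dXc (fun t => (b4 s t y hy).2.2.2.1) x
    have k3 : dS (dY (dY f)) s x y = dY (dY (dS f)) s x y := by
      rw [(e4 s x y hy).2.2.2.2.1]
      exact EWC_dYc hy (fun t ht => (b4 s x t ht).2.2.2.2.1)
    rw [k1, k2, k3]
  · intro s x y hy
    show deriv (fun t => f t (-x) y) s = -deriv (fun t => f t x y) s
    rw [funext fun t => hf.odd t x y hy, deriv.fun_neg]
  · intro s x y hy
    exact EWC_dSc (u := fun t _ _ => f t (-(x / (x ^ 2 + y ^ 2))) (y / (x ^ 2 + y ^ 2)))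
      (v := f) (x := x) (y := y) (fun t => hf.inv t x y hy) s
  · intro s x y hy
    exact EWC_dSc (u := fun t _ _ => f t (x + 1) y) (v := f) (x := x) (y := y)
      (fun t => hf.per t x y hy) s
  · intro j S
    exact hf.dec (j + 1) S

/-- the difference -/
theorem EWC_df (hBS : BS_stmt) {f : ℝ → ℝ → ℝ → ℝ} (hf : Sm f) (h : ℝ) {u : ℝ → ℝ → ℝ → ℝ}
    (hu : ∀ s x y, 0 < y → u s x y = f (s + h) x y - f s x y) :
    (∀ s x y, 0 < y → dS u s x y = dS f (s + h) x y - dS f s x y) ∧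
    (∀ s x y, 0 < y → dX u s x y = dX f (s + h) x y - dX f s x y) ∧
    (∀ s x y, 0 < y → dY u s x y = dY f (s + h) x y - dY f s x y) := by
  obtain ⟨b1, b2, b3, b4⟩ := hBS f hf
  refine ⟨fun s x y hy => ?_, fun s x y hy => ?_, fun s x y hy => ?_⟩
  · have g1 := (b4 (s + h) x y hy).1.comp_add_const s h
    have g2 := g1.sub (b4 s x y hy).1
    show deriv (fun t => u t x y) s = _
    rw [funext fun t => hu t x y hy]
    exact g2.deriv
  · have g2 := (b4 (s + h) x y hy).2.1.sub (b4 s x y hy).2.1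
    show deriv (fun t => u s t y) x = _
    rw [funext fun t => hu s t y hy]
    exact g2.deriv
  · have g2 := (b4 (s + h) x y hy).2.2.1.sub (b4 s x y hy).2.2.1
    rw [EWC_dYc (v := fun s x y => f (s + h) x y - f s x y) hy (fun t ht => hu s x t ht)]
    exact g2.deriv

theorem EWC_sm {f : ℝ → ℝ → ℝ → ℝ} (hf : Sm f) (h : ℝ) :
    Sm (fun s x y => f (s + h) x y - f s x y) := by
  have h1 : ContDiffOn ℝ ∞ (fun p : ℝ × ℝ × ℝ => f (p.1 + h) p.2.1 p.2.2) {p | 0 < p.2.2} := by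
    have h2 : ContDiff ℝ ∞ (fun p : ℝ × ℝ × ℝ => ((p.1 + h, p.2.1, p.2.2) : ℝ × ℝ × ℝ)) := by
      fun_prop
    exact ContDiffOn.comp (g := fun p : ℝ × ℝ × ℝ => f p.1 p.2.1 p.2.2)
      (f := fun p : ℝ × ℝ × ℝ => ((p.1 + h, p.2.1, p.2.2) : ℝ × ℝ × ℝ)) hf h2.contDiffOn
      (fun p hp => hp)
  exact h1.sub hf

theorem EWC_iter (hBS : BS_stmt) {f : ℝ → ℝ → ℝ → ℝ} (hf : Sm f) (h : ℝ) (j : ℕ) (s x y : ℝ)
    (hy : 0 < y) : (dS^[j] (fun s x y => f (s + h) x y - f s x y)) s x y =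
      (dS^[j] f) (s + h) x y - (dS^[j] f) s x y := by
  induction j generalizing s x y with
  | zero => rfl
  | succ j ih =>
    rw [Function.iterate_succ_apply', Function.iterate_succ_apply']
    exact (EWC_df hBS (EWC_it hBS hf j) h ih).1 s x y hy

theorem EWC (hBS : BS_stmt) : EWC_stmt := by
  refine ⟨fun f hf => EWC_one hBS hf, fun f hf h => ⟨?_, fun j s x y hy =>
    EWC_iter hBS hf.sm h j s x y hy⟩⟩
  obtain ⟨b1, b2, b3, b4⟩ := hBS f hf.sm
  obtain ⟨k1, k2, k3⟩ := EWC_df hBS hf.sm h (u := fun s x y => f (s + h) x y - f s x y)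
    (fun s x y _ => rfl)
  have k11 := (EWC_df hBS b1 h k1).1
  have k22 := (EWC_df hBS b2 h k2).2.1
  have k33 := (EWC_df hBS b3 h k3).2.2
  refine ⟨EWC_sm hf.sm h, ?_, ?_, ?_, ?_, ?_⟩
  · intro s x y hy
    rw [k11 s x y hy, k22 s x y hy, k33 s x y hy, hf.wv s x y hy, hf.wv (s + h) x y hy]
    ring
  · intro s x y hy
    show f (s + h) (-x) y - f s (-x) y = -(f (s + h) x y - f s x y)
    rw [hf.odd s x y hy, hf.odd (s + h) x y hy]
    ring
  · intro s x y hy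
    show f (s + h) (-(x / (x ^ 2 + y ^ 2))) (y / (x ^ 2 + y ^ 2)) -
      f s (-(x / (x ^ 2 + y ^ 2))) (y / (x ^ 2 + y ^ 2)) = f (s + h) x y - f s x y
    rw [hf.inv s x y hy, hf.inv (s + h) x y hy]
  · intro s x y hy
    show f (s + h) (x + 1) y - f s (x + 1) y = f (s + h) x y - f s x y
    rw [hf.per s x y hy, hf.per (s + h) x y hy]
  · intro j S
    obtain ⟨C1, h1⟩ := hf.dec j (S + |h|)
    obtain ⟨C2, h2⟩ := hf.dec j S
    refine ⟨C1 + C2, fun s x y hs hy => ?_⟩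
    have hy0 : 0 < y := lt_of_lt_of_le one_pos hy
    have hit := fun s x y (hy : 0 < y) => EWC_iter hBS hf.sm h j s x y hy
    obtain ⟨l1, l2, l3⟩ := EWC_df hBS (EWC_it hBS hf.sm j) h hit
    have hsh : |s + h| ≤ S + |h| := (abs_add_le s h).trans (by linarith)
    obtain ⟨m1, m2, m3⟩ := h1 (s + h) x y hsh hy
    obtain ⟨n1, n2, n3⟩ := h2 s x y hs hy
    refine ⟨?_, ?_, ?_⟩
    · rw [hit s x y hy0, add_div]
      exact (abs_sub _ _).trans (add_le_add m1 n1)
    · rw [l2 s x y hy0, add_div]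
      exact (abs_sub _ _).trans (add_le_add m2 n2)
    · rw [l3 s x y hy0, add_div]
      exact (abs_sub _ _).trans (add_le_add m3 n3)

end SF
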