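import Pool.Agent.helper68.SF.SpecW

set_option autoImplicit false

namespace SF

open scoped ContDiff

/-- derivative in the first variable -/
noncomputable def HAD_d (M : ℝ × (ℝ × ℝ × ℝ) → ℝ) (q : ℝ × (ℝ × ℝ × ℝ)) : ℝ := fderiv ℝ M q (1, 0)

theorem HAD_sm {M : ℝ × (ℝ × ℝ × ℝ) → ℝ} {W : Set (ℝ × (ℝ × ℝ × ℝ))} (hW : IsOpen W)
    (hM : ContDiffOn ℝ ∞ M W) : ContDiffOn ℝ ∞ (HAD_d M) W := by
  have h := hM.fderiv_of_isOpen hW (m := ∞) (by simp)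
  exact h.clm_apply contDiffOn_const

theorem HAD_der {M : ℝ × (ℝ × ℝ × ℝ) → ℝ} {W : Set (ℝ × (ℝ × ℝ × ℝ))} (hW : IsOpen W)
    (hM : ContDiffOn ℝ ∞ M W) {f : ℝ → ℝ} {f' t : ℝ} {p : ℝ × ℝ × ℝ} (hf : HasDerivAt f f' t)
    (hq : (f t, p) ∈ W) : HasDerivAt (fun t => M (f t, p)) (f' * HAD_d M (f t, p)) t := by
  have h1 : HasFDerivAt M (fderiv ℝ M (f t, p)) (f t, p) :=
    ((hM.contDiffAt (hW.mem_nhds hq)).differentiableAt (by simp)).hasFDerivAt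
  have h2 : HasDerivAt (fun t => ((f t, p) : ℝ × (ℝ × ℝ × ℝ))) (f', 0) t :=
    hf.prodMk (hasDerivAt_const t p)
  have h3 := h1.comp_hasDerivAt t h2
  have h4 : fderiv ℝ M (f t, p) (f', 0) = f' * HAD_d M (f t, p) := by
    have : ((f', 0) : ℝ × (ℝ × ℝ × ℝ)) = f' • (1, 0) := by simp
    rw [this, map_smul]
    rfl
  rw [h4] at h3
  exact h3

theorem HAD (hPI : PI_stmt) : HAD_stmt := by
  intro δ V M hδ hV hM h0 h1
  have hW : IsOpen (Set.Ioo (-δ) δ ×ˢ V) := isOpen_Ioo.prod hV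
  have hM1 := HAD_sm hW hM
  have hM2 := HAD_sm hW hM1
  have hin : ∀ τ ∈ Set.Ioo (-δ) δ, ∀ θ : ℝ, Real.sin θ ^ 2 * τ ∈ Set.Ioo (-δ) δ := by
    intro τ hτ θ
    have h2 : Real.sin θ ^ 2 ≤ 1 := Real.sin_sq_le_one θ
    have h3 : 0 ≤ Real.sin θ ^ 2 := sq_nonneg _
    have h4 : |Real.sin θ ^ 2 * τ| ≤ |τ| := by
      rw [abs_mul, abs_of_nonneg h3]
      exact mul_le_of_le_one_left (abs_nonneg _) h2
    have h5 : |τ| < δ := abs_lt.2 hτ
    exact abs_lt.1 (lt_of_le_of_lt h4 h5)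
  refine ⟨fun e => ∫ θ in (0 : ℝ)..(Real.pi / 2), Real.cos θ ^ 2 *
    HAD_d (HAD_d M) (Real.sin θ ^ 2 * e.1, e.2) * (2 * Real.sin θ * Real.cos θ), ?_, ?_⟩
  · refine hPI (ℝ × (ℝ × ℝ × ℝ)) (Set.Ioo (-δ) δ ×ˢ V) (fun e θ => Real.cos θ ^ 2 *
      HAD_d (HAD_d M) (Real.sin θ ^ 2 * e.1, e.2) * (2 * Real.sin θ * Real.cos θ)) 0 (Real.pi / 2)
      hW ?_
    have k1 : ContDiff ℝ ∞ (fun p : (ℝ × (ℝ × ℝ × ℝ)) × ℝ => Real.cos p.2 ^ 2) :=
      (Real.contDiff_cos.comp contDiff_snd).pow 2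
    have k2 : ContDiff ℝ ∞ (fun p : (ℝ × (ℝ × ℝ × ℝ)) × ℝ => 2 * Real.sin p.2 * Real.cos p.2) :=
      (contDiff_const.mul (Real.contDiff_sin.comp contDiff_snd)).mul
        (Real.contDiff_cos.comp contDiff_snd)
    have k3 : ContDiff ℝ ∞ (fun p : (ℝ × (ℝ × ℝ × ℝ)) × ℝ =>
        ((Real.sin p.2 ^ 2 * p.1.1, p.1.2) : ℝ × (ℝ × ℝ × ℝ))) :=
      (((Real.contDiff_sin.comp contDiff_snd).pow 2).mul
        (contDiff_fst.comp contDiff_fst)).prodMk (contDiff_snd.comp contDiff_fst)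
    have k4 : ContDiffOn ℝ ∞ (fun p : (ℝ × (ℝ × ℝ × ℝ)) × ℝ =>
        HAD_d (HAD_d M) (Real.sin p.2 ^ 2 * p.1.1, p.1.2))
        ((Set.Ioo (-δ) δ ×ˢ V) ×ˢ (Set.univ : Set ℝ)) :=
      ContDiffOn.comp (g := HAD_d (HAD_d M)) hM2 k3.contDiffOn
        (fun p hp => ⟨hin _ hp.1.1 _, hp.1.2⟩)
    exact (k1.contDiffOn.mul k4).mul k2.contDiffOn
  · intro τ hτ p hp
    have hd : ∀ θ : ℝ, HasDerivAt (fun θ => Real.sin θ ^ 2 * τ)
        (2 * Real.sin θ * Real.cos θ * τ) θ := by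
      intro θ
      have h := ((Real.hasDerivAt_sin θ).pow 2).mul_const τ
      refine h.congr_deriv ?_
      norm_num
    have hmem : ∀ θ : ℝ, (Real.sin θ ^ 2 * τ, p) ∈ Set.Ioo (-δ) δ ×ˢ V :=
      fun θ => ⟨hin τ hτ θ, hp⟩
    have hder : ∀ θ : ℝ, HasDerivAt (fun θ => Real.cos θ ^ 2 * τ * HAD_d M (Real.sin θ ^ 2 * τ, p) +
        M (Real.sin θ ^ 2 * τ, p))
        (τ ^ 2 * (Real.cos θ ^ 2 * HAD_d (HAD_d M) (Real.sin θ ^ 2 * τ, p) *
          (2 * Real.sin θ * Real.cos θ))) θ := by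
      intro θ
      have e1 := HAD_der hW hM1 (hd θ) (hmem θ)
      have e2 := HAD_der hW hM (hd θ) (hmem θ)
      have e3 := (((Real.hasDerivAt_cos θ).pow 2).mul_const τ).mul e1
      refine (e3.add e2).congr_deriv ?_
      norm_num
      ring
    have hcont : Continuous (fun θ => τ ^ 2 * (Real.cos θ ^ 2 *
        HAD_d (HAD_d M) (Real.sin θ ^ 2 * τ, p) * (2 * Real.sin θ * Real.cos θ))) := by
      have h2 : Continuous (fun θ => HAD_d (HAD_d M) (Real.sin θ ^ 2 * τ, p)) := by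
        have h3 : Continuous (fun θ : ℝ => ((Real.sin θ ^ 2 * τ, p) : ℝ × (ℝ × ℝ × ℝ))) := by
          fun_prop
        exact ContinuousOn.comp_continuous hM2.continuousOn h3 hmem
      fun_prop
    have hFTC := intervalIntegral.integral_eq_sub_of_hasDerivAt (a := 0) (b := Real.pi / 2)
      (fun θ _ => hder θ) (hcont.intervalIntegrable _ _)
    rw [intervalIntegral.integral_const_mul] at hFTC
    show M (τ, p) = τ ^ 2 * _
    rw [hFTC]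
    have hz : HAD_d M (0, p) = 0 := by
      have e4 := HAD_der hW hM (hasDerivAt_id (0 : ℝ)) (p := p) (by
        exact ⟨⟨by simpa using hδ, hδ⟩, hp⟩)
      have e5 := e4.deriv
      have e6 := h1 p hp
      rw [one_mul] at e5
      exact e5.symm.trans e6
    simp only [Real.sin_pi_div_two, Real.cos_pi_div_two, Real.sin_zero, Real.cos_zero]
    norm_num
    rw [hz, h0 p hp]
    ring

end SF
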