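import Pool.Agent.helper68.SF.SpecJ

set_option autoImplicit false

namespace SF

open MeasureTheory Set
open scoped ContDiff

theorem J1_q {l l' y : ℝ} (hl : 0 < l) (hl' : 0 < l') (hy : 0 < y) : 0 < qq l l' y := by
  unfold qq
  positivity

theorem J1_lo {l l' y : ℝ} (hl : 0 < l) (hl' : 0 < l') (hy : 0 < y) :
    1 / (√(qq l l' y) * y) ≤ 1 / l * y ^ (-(1 / 2) : ℝ) := by
  have hs : 0 < √y := Real.sqrt_pos.2 hy
  have h1 : l / √y ≤ √(qq l l' y) := by
    rw [← Real.sqrt_sq (by positivity : 0 ≤ l / √y)]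
    refine Real.sqrt_le_sqrt ?_
    rw [div_pow, Real.sq_sqrt hy.le]
    unfold qq
    have : 0 < y * l' ^ 2 := by positivity
    linarith
  have h2 : l / √y * y = l * √y := by
    have h3 : y = √y * √y := (Real.mul_self_sqrt hy.le).symm
    calc l / √y * y = l / √y * (√y * √y) := by rw [← h3]
      _ = l * √y := by field_simp
  have h4 : l * √y ≤ √(qq l l' y) * y := by
    rw [← h2]
    exact mul_le_mul_of_nonneg_right h1 hy.le
  calc 1 / (√(qq l l' y) * y) ≤ 1 / (l * √y) := one_div_le_one_div_of_le (by positivity) h4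
    _ = 1 / l * y ^ (-(1 / 2) : ℝ) := by
      rw [Real.rpow_neg hy.le, ← Real.sqrt_eq_rpow, one_div_mul_eq_div, one_div, mul_inv, div_eq_mul_inv,
        mul_comm]

theorem J1_hi {l l' y : ℝ} (hl : 0 < l) (hl' : 0 < l') (hy : 0 < y) :
    1 / (√(qq l l' y) * y) ≤ 1 / l' * y ^ (-(3 / 2) : ℝ) := by
  have hs : 0 < √y := Real.sqrt_pos.2 hy
  have h1 : l' * √y ≤ √(qq l l' y) := by
    rw [← Real.sqrt_sq (by positivity : 0 ≤ l' * √y)]
    refine Real.sqrt_le_sqrt ?_
    rw [mul_pow, Real.sq_sqrt hy.le]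
    unfold qq
    have : 0 < l ^ 2 / y := by positivity
    nlinarith
  have h4 : l' * √y * y ≤ √(qq l l' y) * y := mul_le_mul_of_nonneg_right h1 hy.le
  calc 1 / (√(qq l l' y) * y) ≤ 1 / (l' * √y * y) := one_div_le_one_div_of_le (by positivity) h4
    _ = 1 / l' * y ^ (-(3 / 2) : ℝ) := by
      have h5 : y ^ (-(3 / 2) : ℝ) = (√y * y)⁻¹ := by
        rw [Real.rpow_neg hy.le]
        congr 1
        rw [show (3 / 2 : ℝ) = 1 / 2 + 1 by norm_num, Real.rpow_add hy, Real.rpow_one,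
          ← Real.sqrt_eq_rpow]
      rw [h5, one_div, one_div, mul_assoc, mul_inv]

theorem J1_cq {l l' : ℝ} : ContinuousOn (fun y => qq l l' y) (Ioi 0) := by
  unfold qq
  refine ContinuousOn.add (by fun_prop) ?_
  exact ContinuousOn.div continuousOn_const continuousOn_id fun y hy => ne_of_gt hy

theorem J1_c1 {l l' : ℝ} (hl : 0 < l) (hl' : 0 < l') :
    ContinuousOn (fun y => 1 / (√(qq l l' y) * y)) (Ioi 0) := by
  refine ContinuousOn.div continuousOn_const (J1_cq.sqrt.mul continuousOn_id) fun y hy => ?_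
  exact (mul_pos (Real.sqrt_pos.2 (J1_q hl hl' hy)) hy).ne'

theorem J1_int {l l' : ℝ} (hl : 0 < l) (hl' : 0 < l') :
    IntegrableOn (fun y => 1 / (√(qq l l' y) * y)) (Ioi 0) ∧
    ∫ y in Ioi (0 : ℝ), 1 / (√(qq l l' y) * y) ≤ 2 * (1 / l + 1 / l') := by
  have hpos : ∀ y : ℝ, 0 < y → 0 ≤ 1 / (√(qq l l' y) * y) := fun y hy => by positivity
  have a1 : IntegrableOn (fun y : ℝ => 1 / l * y ^ (-(1 / 2) : ℝ)) (Ioc 0 1) := by
    refine Integrable.const_mul ?_ _
    have := intervalIntegral.intervalIntegrable_rpow' (a := 0) (b := 1) (r := -(1 / 2))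
      (by norm_num)
    exact (intervalIntegrable_iff_integrableOn_Ioc_of_le zero_le_one).1 this
  have a2 : IntegrableOn (fun y : ℝ => 1 / l' * y ^ (-(3 / 2) : ℝ)) (Ioi 1) :=
    Integrable.const_mul (integrableOn_Ioi_rpow_of_lt (by norm_num) one_pos) _
  have b1 : IntegrableOn (fun y => 1 / (√(qq l l' y) * y)) (Ioc 0 1) := by
    refine Integrable.mono' a1 ?_ ?_
    · exact ((J1_c1 hl hl').mono Ioc_subset_Ioi_self).aestronglyMeasurable measurableSet_Ioc
    · refine (ae_restrict_iff' measurableSet_Ioc).2 (Filter.Eventually.of_forall fun y hy => ?_)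
      rw [Real.norm_eq_abs, abs_of_nonneg (hpos y hy.1)]
      exact J1_lo hl hl' hy.1
  have b2 : IntegrableOn (fun y => 1 / (√(qq l l' y) * y)) (Ioi 1) := by
    refine Integrable.mono' a2 ?_ ?_
    · exact ((J1_c1 hl hl').mono (Ioi_subset_Ioi zero_le_one)).aestronglyMeasurable
        measurableSet_Ioi
    · refine (ae_restrict_iff' measurableSet_Ioi).2 (Filter.Eventually.of_forall fun y hy => ?_)
      have hy0 : (0 : ℝ) < y := lt_trans one_pos hy
      rw [Real.norm_eq_abs, abs_of_nonneg (hpos y hy0)]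
      exact J1_hi hl hl' hy0
  have hU : Ioc (0 : ℝ) 1 ∪ Ioi 1 = Ioi 0 := Ioc_union_Ioi_eq_Ioi zero_le_one
  refine ⟨hU ▸ b1.union b2, ?_⟩
  rw [← hU, setIntegral_union (Ioc_disjoint_Ioi le_rfl) measurableSet_Ioi b1 b2]
  have c1 : ∫ y in Ioc (0 : ℝ) 1, 1 / (√(qq l l' y) * y) ≤ 2 * (1 / l) := by
    refine (setIntegral_mono_on b1 a1 measurableSet_Ioc fun y hy => J1_lo hl hl' hy.1).trans ?_
    rw [integral_const_mul, ← intervalIntegral.integral_of_le zero_le_one,
      integral_rpow (Or.inl (by norm_num))]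
    norm_num
    rw [mul_comm]
  have c2 : ∫ y in Ioi (1 : ℝ), 1 / (√(qq l l' y) * y) ≤ 2 * (1 / l') := by
    refine (setIntegral_mono_on b2 a2 measurableSet_Ioi fun y hy =>
      J1_hi hl hl' (lt_trans one_pos hy)).trans ?_
    rw [integral_const_mul, integral_Ioi_rpow_of_lt (by norm_num) one_pos]
    norm_num
    rw [mul_comm]
  linarith

theorem J1 : J1_stmt := by
  intro f f' B l l' hf hl hl'
  obtain ⟨i1, i2⟩ := J1_int hl hl'
  have hB : 0 ≤ B := by
    have := hf.bd 0 1 one_pos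
    rw [div_one] at this
    exact (abs_nonneg _).trans this
  have hbd : ∀ y : ℝ, 0 < y → |1 / √(qq l l' y) * f (-(1 / 2) * Real.log (qq l l' y)) y| ≤
      B * (1 / (√(qq l l' y) * y)) := by
    intro y hy
    have hs : 0 < √(qq l l' y) := Real.sqrt_pos.2 (J1_q hl hl' hy)
    rw [abs_mul, abs_of_nonneg (by positivity : (0 : ℝ) ≤ 1 / √(qq l l' y))]
    calc 1 / √(qq l l' y) * |f (-(1 / 2) * Real.log (qq l l' y)) y| ≤
        1 / √(qq l l' y) * (B / y) := mul_le_mul_of_nonneg_left (hf.bd _ y hy) (by positivity)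
      _ = B * (1 / (√(qq l l' y) * y)) := by field_simp
  have hcont : ContinuousOn
      (fun y => 1 / √(qq l l' y) * f (-(1 / 2) * Real.log (qq l l' y)) y) (Ioi 0) := by
    refine ContinuousOn.mul (ContinuousOn.div continuousOn_const J1_cq.sqrt fun y hy =>
      (Real.sqrt_pos.2 (J1_q hl hl' hy)).ne') ?_
    have h2 : ContinuousOn (fun y : ℝ => ((-(1 / 2) * Real.log (qq l l' y), y) : ℝ × ℝ)) (Ioi 0) :=
      (continuousOn_const.mul (J1_cq.log fun y hy => (J1_q hl hl' hy).ne')).prodMk continuousOn_id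
    exact ContinuousOn.comp (g := fun p : ℝ × ℝ => f p.1 p.2) hf.cont h2 (fun y hy => hy)
  have hint : IntegrableOn
      (fun y => 1 / √(qq l l' y) * f (-(1 / 2) * Real.log (qq l l' y)) y) (Ioi 0) := by
    refine Integrable.mono' (i1.const_mul B) (hcont.aestronglyMeasurable measurableSet_Ioi) ?_
    refine (ae_restrict_iff' measurableSet_Ioi).2 (Filter.Eventually.of_forall fun y hy => ?_)
    exact hbd y hy
  refine ⟨hint, ?_, ?_, i1, i2⟩
  · unfold jf
    rw [abs_mul, abs_of_pos (by norm_num : (0 : ℝ) < 1 / 2)]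
    have h1 : |∫ y in Ioi (0 : ℝ), 1 / √(qq l l' y) * f (-(1 / 2) * Real.log (qq l l' y)) y| ≤
        ∫ y in Ioi (0 : ℝ), B * (1 / (√(qq l l' y) * y)) := by
      refine (abs_integral_le_integral_abs).trans ?_
      exact setIntegral_mono_on hint.abs (i1.const_mul B) measurableSet_Ioi fun y hy => hbd y hy
    rw [integral_const_mul] at h1
    have h2 : B * ∫ y in Ioi (0 : ℝ), 1 / (√(qq l l' y) * y) ≤ B * (2 * (1 / l + 1 / l')) :=
      mul_le_mul_of_nonneg_left i2 hB
    linarith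
  · unfold jf
    rw [← integral_comp_rpow_Ioi
      (fun y => 1 / √(qq l' l y) * f (-(1 / 2) * Real.log (qq l' l y)) y)
      (p := -1) (by norm_num), ← mul_neg, ← integral_neg]
    congr 1
    refine setIntegral_congr_fun measurableSet_Ioi fun y hy => ?_
    have hy0 : (0 : ℝ) < y := hy
    have e1 : y ^ (-1 : ℝ) = 1 / y := by
      rw [Real.rpow_neg hy0.le, Real.rpow_one, one_div]
    have e2 : y ^ (-1 - 1 : ℝ) = (y ^ 2)⁻¹ := by
      rw [show (-1 - 1 : ℝ) = -(2 : ℕ) by norm_num, Real.rpow_neg hy0.le, Real.rpow_natCast]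
    have e3 : qq l' l (1 / y) = qq l l' y := by
      unfold qq
      field_simp
      ring
    simp only [e1, e2, e3, smul_eq_mul, hf.sym _ y hy0]
    rw [abs_neg, abs_one, one_mul]
    field_simp

end SF
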