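import Pool.Agent.helper68.SF.SpecW

set_option autoImplicit false

namespace SF

theorem NO : NO_stmt := by
  intro g A c
  unfold NN
  have h1 : ∀ p : ℝ, (∫ t : ℝ, deriv g (A * (p ^ 2 + t ^ 2 + 1 - (-c) ^ 2))) =
      ∫ t : ℝ, deriv g (A * ((-p) ^ 2 + t ^ 2 + 1 - c ^ 2)) := by
    intro p
    rw [neg_sq, neg_sq]
  rw [intervalIntegral.integral_congr (g := fun p => ∫ t : ℝ, deriv g (A * ((-p) ^ 2 + t ^ 2 + 1 - c ^ 2)))
    (fun p _ => h1 p), intervalIntegral.integral_comp_neg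
    (fun p => ∫ t : ℝ, deriv g (A * (p ^ 2 + t ^ 2 + 1 - c ^ 2))), neg_neg, neg_zero,
    intervalIntegral.integral_symm, mul_neg]

end SF
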