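import Pool.Agent.helper68.SF.SpecW

set_option autoImplicit false

namespace SF

open scoped ContDiff

theorem PSC : PSC_stmt := by
  intro F hF p0 hp0
  obtain ⟨hF1, hF2⟩ := hF
  obtain ⟨V, δ, k0, G, hV, hpV, hVH, hδ, hk0, hkδ, hG, hFG⟩ := hF2 p0 hp0
  obtain ⟨r, hr, hball⟩ := Metric.nhds_basis_closedBall.mem_iff.1 (hV.mem_nhds hpV)
  have hK : IsCompact (Metric.closedBall p0 r) := isCompact_closedBall p0 r
  have hk0' : (0 : ℝ) < k0 := by exact_mod_cast (lt_of_lt_of_le one_pos hk0)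
  have hI : IsCompact (Set.Icc (-(1 / (k0 : ℝ))) (1 / (k0 : ℝ)) ×ˢ Metric.closedBall p0 r) :=
    isCompact_Icc.prod hK
  have hsub : Set.Icc (-(1 / (k0 : ℝ))) (1 / (k0 : ℝ)) ×ˢ Metric.closedBall p0 r ⊆
      Set.Ioo (-δ) δ ×ˢ V := by
    intro q hq
    exact ⟨⟨by linarith [hq.1.1], by linarith [hq.1.2]⟩, hball hq.2⟩
  obtain ⟨C1, hC1⟩ := hI.exists_bound_of_continuousOn (hG.continuousOn.mono hsub)
  have hB : ∀ k : ℤ, ∃ B : ℝ, ∀ p ∈ Metric.closedBall p0 r, ‖F k p‖ ≤ B := fun k =>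
    hK.exists_bound_of_continuousOn ((hF1 k).continuousOn.mono (hball.trans hVH))
  choose B hB using hB
  have hB0 : ∀ k, 0 ≤ B k := fun k => (norm_nonneg _).trans (hB k p0 (Metric.mem_closedBall_self hr.le))
  have hC10 : 0 ≤ C1 := (norm_nonneg _).trans (hC1 (0, p0) ⟨⟨by
    have : 0 < 1 / (k0 : ℝ) := by positivity
    show -(1 / (k0 : ℝ)) ≤ 0
    linarith, by
    have : 0 < 1 / (k0 : ℝ) := by positivity
    exact this.le⟩, Metric.mem_closedBall_self hr.le⟩)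
  have hS0 : 0 ≤ ∑ k ∈ Finset.Icc (-k0) k0, B k := Finset.sum_nonneg fun k _ => hB0 k
  refine ⟨Metric.ball p0 r, 2 * C1 + (∑ k ∈ Finset.Icc (-k0) k0, B k) * (1 + (k0 : ℝ) ^ 2) + 1,
    Metric.isOpen_ball, Metric.mem_ball_self hr, (Metric.ball_subset_closedBall.trans hball).trans hVH,
    by positivity, ?_⟩
  intro k p hp
  have hp' := Metric.ball_subset_closedBall hp
  have hpos : (0 : ℝ) < 1 + (k : ℝ) ^ 2 := by positivity
  rw [le_div_iff₀ hpos]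
  rcases le_or_gt k0 |k| with hk | hk
  · have hkR : (k0 : ℝ) ≤ |(k : ℝ)| := by
      rw [← Int.cast_abs]
      exact_mod_cast hk
    have h1k : (1 : ℝ) ≤ (k : ℝ) ^ 2 := by
      have h2 : (1 : ℝ) ≤ |(k : ℝ)| := le_trans (by exact_mod_cast hk0) hkR
      have h3 : (k : ℝ) ^ 2 = |(k : ℝ)| ^ 2 := (sq_abs _).symm
      rw [h3]
      nlinarith
    have habs : |1 / (k : ℝ)| ≤ 1 / (k0 : ℝ) := by
      rw [abs_div, abs_one]
      exact one_div_le_one_div_of_le hk0' hkR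
    have h4 := hC1 (1 / (k : ℝ), p) ⟨abs_le.1 habs, hp'⟩
    rw [Real.norm_eq_abs] at h4
    rw [hFG k hk p (hball hp'), abs_mul, abs_of_nonneg (by positivity : (0 : ℝ) ≤ 1 / (k : ℝ) ^ 2)]
    have h5 : 1 / (k : ℝ) ^ 2 * (1 + (k : ℝ) ^ 2) ≤ 2 := by
      rw [one_div, inv_mul_eq_div, div_le_iff₀ (by positivity)]
      linarith
    have h6 : 1 / (k : ℝ) ^ 2 * |G (1 / (k : ℝ), p)| * (1 + (k : ℝ) ^ 2) ≤ 2 * C1 := by
      calc 1 / (k : ℝ) ^ 2 * |G (1 / (k : ℝ), p)| * (1 + (k : ℝ) ^ 2)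
          = (1 / (k : ℝ) ^ 2 * (1 + (k : ℝ) ^ 2)) * |G (1 / (k : ℝ), p)| := by ring
        _ ≤ 2 * C1 := mul_le_mul h5 h4 (abs_nonneg _) (by norm_num)
    have h7 : 0 ≤ (∑ k ∈ Finset.Icc (-k0) k0, B k) * (1 + (k0 : ℝ) ^ 2) := by positivity
    linarith
  · have h1 : |F k p| ≤ B k := by
      have := hB k p hp'
      rwa [Real.norm_eq_abs] at this
    have h2 : B k ≤ ∑ k ∈ Finset.Icc (-k0) k0, B k := by
      refine Finset.single_le_sum (f := B) (fun j _ => hB0 j) (Finset.mem_Icc.2 ?_)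
      exact ⟨by linarith [(abs_lt.1 hk).1], by linarith [(abs_lt.1 hk).2]⟩
    have h3 : 1 + (k : ℝ) ^ 2 ≤ 1 + (k0 : ℝ) ^ 2 := by
      have h4 : |(k : ℝ)| ≤ k0 := by
        rw [← Int.cast_abs]
        exact_mod_cast hk.le
      have h5 : (k : ℝ) ^ 2 ≤ (k0 : ℝ) ^ 2 := sq_le_sq' (abs_le.1 h4).1 (abs_le.1 h4).2
      linarith
    have h6 : |F k p| * (1 + (k : ℝ) ^ 2) ≤
        (∑ k ∈ Finset.Icc (-k0) k0, B k) * (1 + (k0 : ℝ) ^ 2) :=
      mul_le_mul (h1.trans h2) h3 hpos.le hS0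
    linarith

end SF
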