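import Pool.Agent.helper43.SF.EWC

set_option autoImplicit false

namespace SF

open scoped ContDiff

theorem WE_prof (hPD : PD_stmt) {g : ℝ → ℝ} (hg : Prof g) (j : ℕ) : Prof (DD^[j] g) := by
  induction j with
  | zero => exact hg
  | succ j ih =>
    rw [Function.iterate_succ_apply']
    exact (hPD _ ih).1

theorem WE_it (hWS : WS_stmt) (hPD : PD_stmt) {g : ℝ → ℝ} (hg : Prof g) (j : ℕ) (s x y : ℝ)
    (hy : 0 < y) : (dS^[j] (ww g)) s x y = ww (DD^[j] g) s x y := by
  induction j generalizing s with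
  | zero => rfl
  | succ j ih =>
    rw [Function.iterate_succ_apply', Function.iterate_succ_apply',
      ← (hWS _ (WE_prof hPD hg j)).2.2.1 s x y hy]
    exact EWC_dSc ih s

theorem WE (hWS : WS_stmt) (hWI : WI_stmt) (hWC : WC_stmt) (hPD : PD_stmt) : WE_stmt := by
  intro g hg
  have hit := fun j s x y hy => WE_it hWS hPD hg j s x y hy
  refine ⟨⟨(hWS g hg).1, (hWS g hg).2.1, (hWS g hg).2.2.2.1, fun s x y hy => (hWI g hg s x y hy).1,
    fun s x y hy => (hWI g hg s x y hy).2, ?_⟩, hit⟩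
  intro j S
  obtain ⟨C, hC⟩ := hWC _ (WE_prof hPD hg j) S
  refine ⟨C, fun s x y hs hy => ?_⟩
  have hy0 : 0 < y := lt_of_lt_of_le one_pos hy
  obtain ⟨h1, h2, h3⟩ := hC s x y hs hy
  rw [hit j s x y hy0, EWC_dXc (fun t => hit j s t y hy0) x,
    EWC_dYc hy0 (fun t ht => hit j s x t ht)]
  exact ⟨h1, h2, h3⟩

end SF
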