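import Pool.Agent.helper72.SF.SpecT
import Pool.Agent.helper32.AM.XL

set_option autoImplicit false

namespace SF

open Pool.Agent.helper72.Sq AM Matrix

theorem T3_tr (A B : SpecialLinearGroup (Fin 2) ℝ) : tr (A * B⁻¹) = tr A * tr B - tr (A * B) := by
  unfold tr
  simp only [sl2_mul]
  rw [SpecialLinearGroup.SL2_inv_expl]
  simp
  ring

theorem T3_trTri (ρ : F2 →* SpecialLinearGroup (Fin 2) ℝ) (x y : F2 × F2) (h : PConj x y) :
    trTri ρ x = trTri ρ y := by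
  obtain ⟨c, h1, h2⟩ := h
  have h3 : y.1 * y.2 = c * (x.1 * x.2) * c⁻¹ := by
    rw [h1, h2]
    group
  unfold trTri
  rw [h3, h1, h2]
  simp only [map_mul, map_inv]
  rw [tr_conj, tr_conj, tr_conj]

theorem T3 (hT2 : T2_stmt) (hXM : XM_stmt) (hXE : XE_stmt) : T3_stmt := by
  intro ρ hρ
  obtain ⟨C, hC⟩ := hT2 (kap (trTri ρ (ga, gb))) hρ.kpos.le
  refine ⟨C, fun i => ?_⟩
  obtain ⟨φ, hφ, hp⟩ := hXM i
  have hA : (twA : MulAut F2) ∈ MCG := Subgroup.subset_closure (by simp)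
  have hB : (twB : MulAut F2) ∈ MCG := Subgroup.subset_closure (by simp)
  have hl1 := (XL_len ρ g1 (pr i) φ hp).1
  have hl2 := (XL_len ρ g2 (pr i) φ hp).1
  obtain ⟨e1, e2, e3, e4, e5⟩ := hXE ρ hρ φ hφ
  have hA' : (twA : MulAut F2)⁻¹ ∈ MCG := MCG.inv_mem hA
  have hB' : (twB : MulAut F2)⁻¹ ∈ MCG := MCG.inv_mem hB
  have ta : (twA : MulAut F2) ga = ga := by simp [twA]
  have tb : (twA : MulAut F2) gb = ga * gb := by simp [twA]
  have ua : (twB : MulAut F2) ga = ga * gb := by simp [twB]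
  have ub : (twB : MulAut F2) gb = gb := by simp [twB]
  have ta' : (twA : MulAut F2)⁻¹ ga = ga := by
    rw [MulAut.inv_def, MulEquiv.symm_apply_eq]
    exact ta.symm
  have tb' : (twA : MulAut F2)⁻¹ gb = ga⁻¹ * gb := by
    rw [MulAut.inv_def, MulEquiv.symm_apply_eq, map_mul, map_inv, ta, tb]
    group
  have ub' : (twB : MulAut F2)⁻¹ gb = gb := by
    rw [MulAut.inv_def, MulEquiv.symm_apply_eq]
    exact ub.symm
  have ua' : (twB : MulAut F2)⁻¹ ga = ga * gb⁻¹ := by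
    rw [MulAut.inv_def, MulEquiv.symm_apply_eq, map_mul, map_inv, ua, ub]
    group
  have f1 := (hXE ρ hρ (φ * twA * twA * twA) (MCG.mul_mem (MCG.mul_mem (MCG.mul_mem hφ hA) hA) hA)).2.1
  have f2 := (hXE ρ hρ (φ * twB * twB) (MCG.mul_mem (MCG.mul_mem hφ hB) hB)).1
  have f3 := (hXE ρ hρ (φ * (twA : MulAut F2)⁻¹ * (twA : MulAut F2)⁻¹ * (twA : MulAut F2)⁻¹)
    (MCG.mul_mem (MCG.mul_mem (MCG.mul_mem hφ hA') hA') hA')).2.1
  have f4 := (hXE ρ hρ (φ * (twB : MulAut F2)⁻¹ * (twB : MulAut F2)⁻¹)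
    (MCG.mul_mem (MCG.mul_mem hφ hB') hB')).1
  simp only [MulAut.mul_apply, map_mul, map_inv, ta, tb, ua, ub, ta', tb', ua', ub'] at f1 f2 f3 f4
  have htri : trTri ρ (pr i) = (tr (ρ (φ ga)), tr (ρ (φ gb)), tr (ρ (φ ga) * ρ (φ gb))) := by
    rw [T3_trTri ρ _ _ hp]
    simp only [trTri, map_mul]
  generalize hAA : ρ (φ ga) = A at *
  generalize hBB : ρ (φ gb) = B at *
  rw [htri]
  constructor
  · have h := hC A B e1 e2 e3 e4 e5 (by
      have : A ^ 3 * B = A * (A * (A * B)) := by simp only [pow_succ, pow_zero, one_mul, mul_assoc]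
      rw [this]; exact f1) (by
      have : A * B ^ 2 = A * B * B := by simp only [pow_succ, pow_zero, one_mul, mul_assoc]
      rw [this]; exact f2)
    have hg : cLen ρ (cv g1 i) = 2 * Real.arcosh (|tr (A ^ 4 * B ^ 3)| / 2) := by
      show gLen ρ (ev (pr i) g1) = _
      rw [hl1]
      unfold gLen g1
      simp only [map_mul, map_pow, hAA, hBB]
    rw [hg]
    exact h
  · have k1 : tr (A * B⁻¹) = tr (A⁻¹ * B) := by
      rw [← tr_inv (A * B⁻¹), _root_.mul_inv_rev, inv_inv, tr_comm]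
    have k2 : tr (A⁻¹ * B⁻¹) = tr (A * B) := by
      rw [← _root_.mul_inv_rev, tr_inv, tr_comm]
    have k3 : tr (A * B⁻¹ * A⁻¹ * B⁻¹⁻¹) = tr (A * B * A⁻¹ * B⁻¹) := by
      rw [inv_inv, tr_comm, ← tr_inv]
      congr 1
      simp only [_root_.mul_inv_rev, inv_inv, mul_assoc]
    have k4 : tr (A ^ 3 * B⁻¹) = tr (A⁻¹ * (A⁻¹ * (A⁻¹ * B))) := by
      rw [← tr_inv (A ^ 3 * B⁻¹), _root_.mul_inv_rev, inv_inv, tr_comm]
      congr 1
      simp only [pow_succ, pow_zero, one_mul, _root_.mul_inv_rev, mul_assoc]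
    have h := hC A B⁻¹ e1 (by rw [tr_inv]; exact e2) (by rw [k1]; exact e4)
      (by rw [k2]; exact e3) (by rw [k3]; exact e5) (by rw [k4]; exact f3) (by
      have : A * B⁻¹ ^ 2 = A * B⁻¹ * B⁻¹ := by simp only [pow_succ, pow_zero, one_mul, mul_assoc]
      rw [this]; exact f4)
    have hg : cLen ρ (cv g2 i) = 2 * Real.arcosh (|tr (A ^ 4 * B⁻¹ ^ 3)| / 2) := by
      show gLen ρ (ev (pr i) g2) = _
      rw [hl2]
      unfold gLen g2
      simp only [map_mul, map_pow, map_inv, hAA, hBB, inv_pow]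
    rw [hg]
    rw [tr_inv, T3_tr] at h
    exact h

end SF
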